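import Pool.Agent.U400.PD.Core
import Pool.Agent.U400.PD.Fam

set_option autoImplicit false
set_option linter.unusedSectionVars false

/-!
# Summands of dimension two of the first homology: the action of the derived algebras
-/

open Module Function TensorProduct Matrix

noncomputable section

namespace Pool.Agent.U400.PD

open Pool.Agent.Y102 Pool.Agent.W516.DR Pool.Agent.H204R3.GP Pool.Agent.W516.KC
  Pool.Agent.H204R3.SP Pool.Agent.TH119.MX Pool.Agent.R917 Pool.Agent.N208.AM Pool.Agent.N113.BT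

/-- the traceless part -/
def tl : M2 →ₗ[ℂ] M2 where
  toFun x := x - (x.trace / 2) • (1 : M2)
  map_add' x y := by rw [Matrix.trace_add, add_div, add_smul]; abel
  map_smul' c x := by
    rw [Matrix.trace_smul, smul_eq_mul, mul_div_assoc, mul_smul, smul_sub, RingHom.id_apply]

theorem tl_apply (x : M2) : tl x = x - (x.trace / 2) • (1 : M2) := rfl

theorem tl_trace (x : M2) : (tl x).trace = 0 := by
  rw [tl_apply, Matrix.trace_sub, Matrix.trace_smul, Matrix.trace_one]
  simp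

theorem tl_br (x y : M2) : tl x * tl y - tl y * tl x = x * y - y * x := by
  rw [tl_apply, tl_apply]
  simp only [Matrix.mul_sub, Matrix.sub_mul, Matrix.smul_mul, Matrix.mul_smul, Matrix.mul_one,
    Matrix.one_mul]
  module

theorem tl_of {x : M2} (hx : x.trace = 0) : tl x = x := by
  rw [tl_apply, hx, zero_div, zero_smul, sub_zero]

section cor

variable {m : ℕ}

/-- The compression of an endomorphism to the summand given by `P` and `Q`. -/
def cor (P : Matrix (Fin m) (Fin 2) ℂ) (Q : Matrix (Fin 2) (Fin m) ℂ) :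
    Module.End ℂ (ℂ ⊗[ℚ] (Fin m → ℚ)) →ₗ[ℂ] M2 where
  toFun y := Q * (matE m).symm y * P
  map_add' x y := by rw [map_add, Matrix.mul_add, Matrix.add_mul]
  map_smul' c x := by rw [map_smul, Matrix.mul_smul, Matrix.smul_mul, RingHom.id_apply]

variable {P : Matrix (Fin m) (Fin 2) ℂ} {Q : Matrix (Fin 2) (Fin m) ℂ}

theorem cor_apply (y : Module.End ℂ (ℂ ⊗[ℚ] (Fin m → ℚ))) :
    cor P Q y = Q * (matE m).symm y * P := rfl

theorem cor_bc (X : Module.End ℚ (Fin m → ℚ)) : cor P Q (X.baseChange ℂ) = Q * toC X * P := by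
  rw [cor_apply, ← matE_toC, AlgEquiv.symm_apply_apply]

theorem cor_mul (hQP : Q * P = 1) (x : Module.End ℂ (ℂ ⊗[ℚ] (Fin m → ℚ)))
    {y : Module.End ℂ (ℂ ⊗[ℚ] (Fin m → ℚ))} (hy : matE m (P * Q) * y = y * matE m (P * Q)) :
    cor P Q (x * y) = cor P Q x * cor P Q y := by
  have h1 : P * Q * (matE m).symm y = (matE m).symm y * (P * Q) := by
    apply (matE m).injective
    rw [map_mul, map_mul, AlgEquiv.apply_symm_apply, hy]
  rw [cor_apply, cor_apply, cor_apply, map_mul]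
  have h2 : (matE m).symm y * P = P * (Q * (matE m).symm y * P) := by
    calc (matE m).symm y * P = (matE m).symm y * P * (Q * P) := by rw [hQP, Matrix.mul_one]
      _ = (matE m).symm y * (P * Q) * P := by simp only [Matrix.mul_assoc]
      _ = P * Q * (matE m).symm y * P := by rw [← h1]
      _ = _ := by simp only [Matrix.mul_assoc]
  calc Q * ((matE m).symm x * (matE m).symm y) * P
      = Q * (matE m).symm x * ((matE m).symm y * P) := by simp only [Matrix.mul_assoc]
    _ = Q * (matE m).symm x * (P * (Q * (matE m).symm y * P)) := by rw [← h2]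
    _ = _ := by simp only [Matrix.mul_assoc]

theorem cor_one (hQP : Q * P = 1) : cor P Q 1 = 1 := by
  rw [cor_apply, map_one, Matrix.mul_one, hQP]

theorem cor_zero_iff {y : Module.End ℂ (ℂ ⊗[ℚ] (Fin m → ℚ))}
    (hy : matE m (P * Q) * y = y * matE m (P * Q)) (h : cor P Q y = 0) (hQP : Q * P = 1) :
    matE m (P * Q) * y = 0 := by
  have h1 : P * Q * (matE m).symm y = (matE m).symm y * (P * Q) := by
    apply (matE m).injective
    rw [map_mul, map_mul, AlgEquiv.apply_symm_apply, hy]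
  have h2 : P * Q * (matE m).symm y = 0 := by
    calc P * Q * (matE m).symm y = P * (Q * P) * Q * (matE m).symm y := by
          rw [hQP, Matrix.mul_one]
      _ = P * Q * (P * Q * (matE m).symm y) := by simp only [Matrix.mul_assoc]
      _ = P * Q * ((matE m).symm y * (P * Q)) := by rw [h1]
      _ = P * (Q * (matE m).symm y * P) * Q := by simp only [Matrix.mul_assoc]
      _ = 0 := by
          rw [← cor_apply, h, Matrix.mul_zero, Matrix.zero_mul]
  have h3 := congrArg (matE m) h2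
  rw [map_mul, AlgEquiv.apply_symm_apply, map_zero] at h3
  exact h3

end cor

section parts

variable {g k : ℕ} {A : AbVar g}

/-- A simple direct summand of dimension two of the first homology. -/
structure Planar (A : AbVar g) (P : Matrix (Fin (2 * g)) (Fin 2) ℂ)
    (Q : Matrix (Fin 2) (Fin (2 * g)) ℂ) : Prop where
  proj : Q * P = 1
  st : ∀ X ∈ A.NA, P * Q * toC X = toC X * (P * Q)
  simple : ∀ v : Fin 2 → ℂ, v ≠ 0 → ∃ X ∈ A.NA, ∀ c : ℂ, (Q * toC X * P) *ᵥ v ≠ c • v

variable {P : Matrix (Fin (2 * g)) (Fin 2) ℂ} {Q : Matrix (Fin 2) (Fin (2 * g)) ℂ}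

theorem Planar.comm (h : Planar A P Q) : ∀ x ∈ cx A.NA, matE (2 * g) (P * Q) * x =
    x * matE (2 * g) (P * Q) := by
  refine cx_comm fun X hX => ?_
  rw [← matE_toC, ← map_mul, ← map_mul, h.st X hX]

variable {𝔮 : Submodule ℚ (Module.End ℚ A.H1)}

theorem Planar.comm_adj (h : Planar A P Q) (hq : A.Full 𝔮) :
    ∀ x ∈ Algebra.adjoin ℂ (cx 𝔮 : Set (Module.End ℂ (ℂ ⊗[ℚ] A.H1))), matE (2 * g) (P * Q) * x =
      x * matE (2 * g) (P * Q) := by
  intro x hx
  induction hx using Algebra.adjoin_induction with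
  | mem x hx => exact h.comm x (cx_mono hq.le hx)
  | algebraMap r => exact (Algebra.commutes r _).symm
  | add x y _ _ hx hy => rw [mul_add, add_mul, hx, hy]
  | mul x y _ _ hx hy => rw [← mul_assoc, hx, mul_assoc, hy, mul_assoc]

theorem cx_br_der {T : Submodule ℚ (Module.End ℚ A.H1)} :
    ∀ x ∈ cx T, ∀ y ∈ cx T, x * y - y * x ∈ cx (der T) :=
  cx_br fun X hX Y hY => by
    rw [← bc_br]
    exact bc_mem (Submodule.subset_span ⟨X, hX, Y, hY, rfl⟩)

theorem Planar.cor_br (h : Planar A P Q) {x y : Module.End ℂ (ℂ ⊗[ℚ] A.H1)} (hx : x ∈ cx A.NA)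
    (hy : y ∈ cx A.NA) : cor P Q (x * y - y * x) = cor P Q x * cor P Q y - cor P Q y * cor P Q x := by
  rw [map_sub, cor_mul h.proj x (h.comm y hy), cor_mul h.proj y (h.comm x hx)]

theorem Planar.der_trace (h : Planar A P Q) {T : Submodule ℚ (Module.End ℚ A.H1)} (hT : T ≤ A.NA) :
    ∀ x ∈ cx (der T), (cor P Q x).trace = 0 := by
  intro x hx
  induction hx using Submodule.span_induction with
  | mem x hx =>
    obtain ⟨X, hX, rfl⟩ := hx
    rw [cor_bc]
    induction hX using Submodule.span_induction with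
    | mem X hX =>
      obtain ⟨X, hX, Y, hY, rfl⟩ := hX
      rw [← cor_bc, bc_br, h.cor_br (bc_mem (hT hX)) (bc_mem (hT hY))]
      exact br_trace _ _
    | zero => rw [← cor_bc, LinearMap.baseChange_zero, map_zero, Matrix.trace_zero]
    | add a b _ _ ha hb =>
      rw [← cor_bc] at ha hb ⊢
      rw [LinearMap.baseChange_add, map_add, Matrix.trace_add, ha, hb, add_zero]
    | smul c a _ ha =>
      have h2 : (c • a).baseChange ℂ = (c : ℂ) • (a.baseChange ℂ : Module.End ℂ (ℂ ⊗[ℚ] A.H1)) := by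
        rw [LinearMap.baseChange_smul]
        exact (Rat.cast_smul_eq_qsmul ℂ c _).symm
      rw [← cor_bc] at ha ⊢
      rw [h2, map_smul, Matrix.trace_smul, ha, smul_zero]
  | zero => rw [map_zero, Matrix.trace_zero]
  | add a b _ _ ha hb => rw [map_add, Matrix.trace_add, ha, hb, add_zero]
  | smul c a _ ha => rw [map_smul, Matrix.trace_smul, ha, smul_zero]

/-- A full subalgebra acts irreducibly. -/
theorem Planar.irr (h : Planar A P Q) (hq : A.Full 𝔮) {v : Fin 2 → ℂ} (hv : v ≠ 0) :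
    ∃ x ∈ cx 𝔮, ∀ c : ℂ, cor P Q x *ᵥ v ≠ c • v := by
  by_contra hcon
  push Not at hcon
  have key : ∀ x ∈ Algebra.adjoin ℂ (cx 𝔮 : Set (Module.End ℂ (ℂ ⊗[ℚ] A.H1))),
      ∃ c : ℂ, cor P Q x *ᵥ v = c • v := by
    intro x hx
    induction hx using Algebra.adjoin_induction with
    | mem x hx => exact hcon x hx
    | algebraMap r =>
      refine ⟨r, ?_⟩
      rw [Algebra.algebraMap_eq_smul_one, map_smul, cor_one h.proj, Matrix.smul_mulVec,
        Matrix.one_mulVec]
    | add x y _ _ hx hy =>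
      obtain ⟨c, hc⟩ := hx
      obtain ⟨d, hd⟩ := hy
      exact ⟨c + d, by rw [map_add, Matrix.add_mulVec, hc, hd, add_smul]⟩
    | mul x y _ hy' hx hy =>
      obtain ⟨c, hc⟩ := hx
      obtain ⟨d, hd⟩ := hy
      refine ⟨d * c, ?_⟩
      rw [cor_mul h.proj x (h.comm_adj hq y hy'), ← Matrix.mulVec_mulVec, hd, Matrix.mulVec_smul, hc,
        smul_smul]
  obtain ⟨X, hX, hX'⟩ := h.simple v hv
  obtain ⟨c, hc⟩ := key _ (hq.cx_adjoin _ (bc_mem hX))
  rw [cor_bc] at hc
  exact hX' c hc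

/-- The traceless parts of a full subalgebra. -/
theorem Planar.surj (h : Planar A P Q) (hq : A.Full 𝔮) (a : M2) (ha : a.trace = 0) :
    ∃ x ∈ cx 𝔮, tl (cor P Q x) = a := by
  have h1 := sl2_of_irred ((cx 𝔮).map (tl ∘ₗ cor P Q)) ?_ ?_ ?_ a ha
  · obtain ⟨x, hx, h2⟩ := h1
    exact ⟨x, hx, h2⟩
  · rintro _ ⟨x, hx, rfl⟩
    exact tl_trace _
  · rintro _ ⟨x, hx, rfl⟩ _ ⟨y, hy, rfl⟩
    refine ⟨x * y - y * x, hq.cx_br' x hx y hy, ?_⟩
    change tl (cor P Q (x * y - y * x)) = tl (cor P Q x) * tl (cor P Q y) -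
      tl (cor P Q y) * tl (cor P Q x)
    rw [tl_br, h.cor_br (cx_mono hq.le hx) (cx_mono hq.le hy), tl_of (br_trace _ _)]
  · intro v hv
    obtain ⟨x, hx, h2⟩ := h.irr hq hv
    refine ⟨_, ⟨x, hx, rfl⟩, fun c hc => h2 (c + (cor P Q x).trace / 2) ?_⟩
    change tl (cor P Q x) *ᵥ v = c • v at hc
    rw [tl_apply, Matrix.sub_mulVec, Matrix.smul_mulVec, Matrix.one_mulVec] at hc
    rw [add_smul, ← hc, sub_add_cancel]

/-- The derived algebra of a full subalgebra acts by all traceless matrices. -/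
theorem Planar.surj_der (h : Planar A P Q) (hq : A.Full 𝔮) (a : M2) (ha : a.trace = 0) :
    ∃ x ∈ cx (der 𝔮), cor P Q x = a := by
  have h1 := perfect ((cx (der 𝔮)).map (cor P Q)) ?_ a ha
  · obtain ⟨x, hx, h2⟩ := h1
    exact ⟨x, hx, h2⟩
  · intro a b ha hb
    obtain ⟨x, hx, rfl⟩ := h.surj hq a ha
    obtain ⟨y, hy, rfl⟩ := h.surj hq b hb
    refine ⟨x * y - y * x, cx_br_der x hx y hy, ?_⟩
    rw [tl_br, h.cor_br (cx_mono hq.le hx) (cx_mono hq.le hy)]

variable {P' : Matrix (Fin (2 * g)) (Fin 2) ℂ} {Q' : Matrix (Fin 2) (Fin (2 * g)) ℂ}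

/-- A matrix which intertwines for a full subalgebra intertwines for the whole Lie algebra. -/
theorem Planar.twine (h : Planar A P Q) (h' : Planar A P' Q') (hq : A.Full 𝔮) {Z : M2}
    (hZ : ∀ x ∈ cx 𝔮, Z * cor P Q x = cor P' Q' x * Z) :
    ∀ x ∈ cx A.NA, Z * cor P Q x = cor P' Q' x * Z := by
  have key : ∀ x ∈ Algebra.adjoin ℂ (cx 𝔮 : Set (Module.End ℂ (ℂ ⊗[ℚ] A.H1))),
      Z * cor P Q x = cor P' Q' x * Z := by
    intro x hx
    induction hx using Algebra.adjoin_induction with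
    | mem x hx => exact hZ x hx
    | algebraMap r =>
      rw [Algebra.algebraMap_eq_smul_one, map_smul, map_smul, cor_one h.proj, cor_one h'.proj,
        Matrix.mul_smul, Matrix.smul_mul, Matrix.mul_one, Matrix.one_mul]
    | add x y _ _ hx hy => rw [map_add, map_add, Matrix.mul_add, Matrix.add_mul, hx, hy]
    | mul x y _ hy' hx hy =>
      rw [cor_mul h.proj x (h.comm_adj hq y hy'), cor_mul h'.proj x (h'.comm_adj hq y hy'),
        ← Matrix.mul_assoc, hx, Matrix.mul_assoc, hy, Matrix.mul_assoc]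
  intro x hx
  exact key x (hq.cx_adjoin x hx)

/-- The equality of the traces. -/
theorem trace_cx {T : Submodule ℚ (Module.End ℚ A.H1)}
    (ht : ∀ X ∈ T, (Q * toC X * P).trace = (Q' * toC X * P').trace) :
    ∀ x ∈ cx T, (cor P Q x).trace = (cor P' Q' x).trace := by
  intro x hx
  induction hx using Submodule.span_induction with
  | mem x hx =>
    obtain ⟨X, hX, rfl⟩ := hx
    rw [cor_bc, cor_bc, ht X hX]
  | zero => rw [map_zero, map_zero]
  | add a b _ _ ha hb => rw [map_add, map_add, Matrix.trace_add, Matrix.trace_add, ha, hb]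
  | smul c a _ ha => rw [map_smul, map_smul, Matrix.trace_smul, Matrix.trace_smul, ha]

/-- Intertwining matrices, for the complex span. -/
theorem twine_cx {T : Submodule ℚ (Module.End ℚ A.H1)} {Z : M2}
    (hZ : ∀ X ∈ T, Z * (Q * toC X * P) = (Q' * toC X * P') * Z) :
    ∀ x ∈ cx T, Z * cor P Q x = cor P' Q' x * Z := by
  intro x hx
  induction hx using Submodule.span_induction with
  | mem x hx =>
    obtain ⟨X, hX, rfl⟩ := hx
    rw [cor_bc, cor_bc, hZ X hX]
  | zero => rw [map_zero, map_zero, Matrix.mul_zero, Matrix.zero_mul]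
  | add a b _ _ ha hb => rw [map_add, map_add, Matrix.mul_add, Matrix.add_mul, ha, hb]
  | smul c a _ ha => rw [map_smul, map_smul, Matrix.mul_smul, Matrix.smul_mul, ha]

/-- Two summands with the same traces which are not isomorphic. -/
theorem Planar.surj_two (h : Planar A P Q) (h' : Planar A P' Q') (hq : A.Full 𝔮)
    (ht : ∀ x ∈ cx A.NA, (cor P Q x).trace = (cor P' Q' x).trace)
    (hZ : ∀ Z : M2, (∀ x ∈ cx A.NA, Z * cor P Q x = cor P' Q' x * Z) → Z = 0) (a : M2)
    (ha : a.trace = 0) : ∃ x ∈ cx (der 𝔮), cor P Q x = a ∧ cor P' Q' x = 0 := by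
  have h1 : ∀ a : M2, a.trace = 0 → ∃ x ∈ cx 𝔮, tl (cor P Q x) = a ∧ tl (cor P' Q' x) = 0 := by
    intro a ha
    have h2 := pair ((cx 𝔮).map ((tl ∘ₗ cor P Q).prod (tl ∘ₗ cor P' Q'))) ?_ ?_ ?_ ?_ ?_ a ha
    · obtain ⟨x, hx, h3⟩ := h2
      exact ⟨x, hx, (Prod.mk.inj h3).1, (Prod.mk.inj h3).2⟩
    · rintro _ ⟨x, hx, rfl⟩
      exact ⟨tl_trace _, tl_trace _⟩
    · rintro _ ⟨x, hx, rfl⟩ _ ⟨y, hy, rfl⟩
      refine ⟨x * y - y * x, hq.cx_br' x hx y hy, ?_⟩
      refine Prod.ext ?_ ?_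
      · change tl (cor P Q (x * y - y * x)) = tl (cor P Q x) * tl (cor P Q y) -
          tl (cor P Q y) * tl (cor P Q x)
        rw [tl_br, h.cor_br (cx_mono hq.le hx) (cx_mono hq.le hy), tl_of (br_trace _ _)]
      · change tl (cor P' Q' (x * y - y * x)) = tl (cor P' Q' x) * tl (cor P' Q' y) -
          tl (cor P' Q' y) * tl (cor P' Q' x)
        rw [tl_br, h'.cor_br (cx_mono hq.le hx) (cx_mono hq.le hy), tl_of (br_trace _ _)]
    · intro a ha
      obtain ⟨x, hx, h3⟩ := h.surj hq a ha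
      exact ⟨_, x, hx, Prod.ext h3 rfl⟩
    · intro a ha
      obtain ⟨x, hx, h3⟩ := h'.surj hq a ha
      exact ⟨_, x, hx, Prod.ext rfl h3⟩
    · intro Z hZ'
      refine hZ Z (h.twine h' hq fun x hx => ?_)
      have h3 : Z * tl (cor P Q x) = tl (cor P' Q' x) * Z := hZ' _ ⟨x, hx, rfl⟩
      rw [tl_apply, tl_apply, ht x (cx_mono hq.le hx), Matrix.mul_sub, Matrix.sub_mul, Matrix.mul_smul,
        Matrix.smul_mul, Matrix.mul_one, Matrix.one_mul] at h3
      exact sub_left_inj.1 h3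
  let S : Submodule ℂ M2 :=
    { carrier := {a | ∃ x ∈ cx (der 𝔮), cor P Q x = a ∧ cor P' Q' x = 0}
      add_mem' := by
        rintro a b ⟨x, hx, rfl, hx'⟩ ⟨y, hy, rfl, hy'⟩
        exact ⟨x + y, Submodule.add_mem _ hx hy, map_add _ _ _, by rw [map_add, hx', hy', add_zero]⟩
      zero_mem' := ⟨0, Submodule.zero_mem _, map_zero _, map_zero _⟩
      smul_mem' := by
        rintro c a ⟨x, hx, rfl, hx'⟩
        exact ⟨c • x, Submodule.smul_mem _ c hx, map_smul _ _ _, by rw [map_smul, hx', smul_zero]⟩ }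
  refine perfect S (fun a b ha hb => ?_) a ha
  obtain ⟨x, hx, h3, h4⟩ := h1 a ha
  obtain ⟨y, hy, h5⟩ := h.surj hq b hb
  refine ⟨x * y - y * x, cx_br_der x hx y hy, ?_, ?_⟩
  · rw [h.cor_br (cx_mono hq.le hx) (cx_mono hq.le hy), ← tl_br, h3, h5]
  · rw [h'.cor_br (cx_mono hq.le hx) (cx_mono hq.le hy), ← tl_br, h4, Matrix.zero_mul,
      Matrix.mul_zero, sub_zero]

end parts

/-- The lemma of Schur. -/
theorem schur {α : Type} {T : Set α} {f f' : α → M2} {Z : M2}
    (hi : ∀ v : Fin 2 → ℂ, v ≠ 0 → ∃ x ∈ T, ∀ c : ℂ, f x *ᵥ v ≠ c • v)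
    (hZ : ∀ x ∈ T, Z * f x = f' x * Z) (h0 : Z ≠ 0) : Z.det ≠ 0 := by
  intro hdet
  obtain ⟨v, hv, hZv⟩ := Matrix.exists_mulVec_eq_zero_iff.2 hdet
  obtain ⟨x, hx, hc⟩ := hi v hv
  have h1 : Z *ᵥ (f x *ᵥ v) = 0 := by
    rw [Matrix.mulVec_mulVec, hZ x hx, ← Matrix.mulVec_mulVec, hZv, Matrix.mulVec_zero]
  by_cases h2 : om v (f x *ᵥ v) = 0
  · obtain ⟨c, h3⟩ := par' hv h2
    exact hc c h3
  · apply h0
    have h3 : ∀ i, Z i 0 * v 0 + Z i 1 * v 1 = 0 := by
      intro i
      have := congrFun hZv i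
      simpa [Matrix.mulVec, dotProduct, Fin.sum_univ_two] using this
    have h4 : ∀ i, Z i 0 * (f x *ᵥ v) 0 + Z i 1 * (f x *ᵥ v) 1 = 0 := by
      intro i
      have := congrFun h1 i
      rw [Matrix.mulVec, dotProduct, Fin.sum_univ_two] at this
      exact this
    have h5 : ∀ i, Z i 0 = 0 := by
      intro i
      have h6 : Z i 0 * om v (f x *ᵥ v) = 0 := by
        unfold om
        linear_combination (f x *ᵥ v) 1 * h3 i - v 1 * h4 i
      exact (mul_eq_zero.1 h6).resolve_right h2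
    have h6 : ∀ i, Z i 1 = 0 := by
      intro i
      have h7 : Z i 1 * om v (f x *ᵥ v) = 0 := by
        unfold om
        linear_combination v 0 * h4 i - (f x *ᵥ v) 0 * h3 i
      exact (mul_eq_zero.1 h7).resolve_right h2
    ext i j
    fin_cases j
    · exact h5 i
    · exact h6 i

end Pool.Agent.U400.PD
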