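import Pool.Agent.U400.PD.Sl2

set_option autoImplicit false

/-!
# Lie algebras of families of traceless matrices of size two
-/

open Matrix

namespace Pool.Agent.U400.PD

/-- Two matrices of size two on which no Lie algebra relation is imposed: a Lie algebra of pairs of
traceless matrices which maps onto both factors is everything, or there is an intertwining matrix. -/
theorem pair (𝔥 : Submodule ℂ (M2 × M2)) (htr : ∀ x ∈ 𝔥, x.1.trace = 0 ∧ x.2.trace = 0)
    (hbr : ∀ x ∈ 𝔥, ∀ y ∈ 𝔥, x * y - y * x ∈ 𝔥)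
    (h1 : ∀ x : M2, x.trace = 0 → ∃ y, (x, y) ∈ 𝔥) (h2 : ∀ y : M2, y.trace = 0 → ∃ x, (x, y) ∈ 𝔥)
    (h3 : ∀ Z : M2, (∀ x ∈ 𝔥, Z * x.1 = x.2 * Z) → Z = 0) :
    ∀ x : M2, x.trace = 0 → (x, 0) ∈ 𝔥 := by
  let 𝔞 : Submodule ℂ M2 := 𝔥.comap (LinearMap.inl ℂ M2 M2)
  let 𝔟 : Submodule ℂ M2 := 𝔥.comap (LinearMap.inr ℂ M2 M2)
  have hA : ∀ x, x ∈ 𝔞 ↔ (x, (0 : M2)) ∈ 𝔥 := fun x => Iff.rfl
  have hB : ∀ y, y ∈ 𝔟 ↔ ((0 : M2), y) ∈ 𝔥 := fun y => Iff.rfl
  have hidA : ∀ y : M2, y.trace = 0 → ∀ a ∈ 𝔞, y * a - a * y ∈ 𝔞 := by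
    intro y hy a ha
    obtain ⟨y', hy'⟩ := h1 y hy
    have h4 := hbr _ hy' _ ((hA a).1 ha)
    rw [hA]
    simpa using h4
  have hidB : ∀ y : M2, y.trace = 0 → ∀ a ∈ 𝔟, y * a - a * y ∈ 𝔟 := by
    intro y hy a ha
    obtain ⟨y', hy'⟩ := h2 y hy
    have h4 := hbr _ hy' _ ((hB a).1 ha)
    rw [hB]
    simpa using h4
  by_cases hA0 : ∃ a ∈ 𝔞, a ≠ 0
  · obtain ⟨a, ha, h0⟩ := hA0
    exact ideal_top 𝔞 hidA ha (htr _ ((hA a).1 ha)).1 h0
  by_cases hB0 : ∃ b ∈ 𝔟, b ≠ 0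
  · obtain ⟨b, hb, h0⟩ := hB0
    have h4 := ideal_top 𝔟 hidB hb (htr _ ((hB b).1 hb)).2 h0
    intro x hx
    obtain ⟨y, hy⟩ := h1 x hx
    have h5 := Submodule.sub_mem _ hy ((hB y).1 (h4 y (htr _ hy).2))
    simpa using h5
  exfalso
  push Not at hA0 hB0
  -- uniqueness
  have hun : ∀ x y y' : M2, (x, y) ∈ 𝔥 → (x, y') ∈ 𝔥 → y = y' := by
    intro x y y' h4 h5
    have h6 := Submodule.sub_mem _ h4 h5
    have h7 : y - y' ∈ 𝔟 := by
      rw [hB]
      simpa using h6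
    exact sub_eq_zero.1 (hB0 _ h7)
  -- the trace forms
  have hq : ∀ x x' : M2, (x, x') ∈ 𝔥 → ∀ y y' : M2, (y, y') ∈ 𝔥 →
      ((x' * x').trace - (x * x).trace) • y' = ((x' * y').trace - (x * y).trace) • x' := by
    intro x x' hx y y' hy
    have h4 := hbr _ hx _ (hbr _ hx _ hy)
    have e1 : x * (x * y - y * x) - (x * y - y * x) * x =
      (2 * (x * x).trace) • y - (2 * (x * y).trace) • x := brbr (htr _ hx).1 (htr _ hy).1
    have e2 : x' * (x' * y' - y' * x') - (x' * y' - y' * x') * x' =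
      (2 * (x' * x').trace) • y' - (2 * (x' * y').trace) • x' := brbr (htr _ hx).2 (htr _ hy).2
    have h5 : ((2 * (x * x).trace) • y - (2 * (x * y).trace) • x,
        (2 * (x' * x').trace) • y' - (2 * (x' * y').trace) • x') ∈ 𝔥 := by
      rw [← e1, ← e2]
      exact h4
    have h6 : ((2 * (x * x).trace) • y - (2 * (x * y).trace) • x,
        (2 * (x * x).trace) • y' - (2 * (x * y).trace) • x') ∈ 𝔥 :=
      Submodule.sub_mem _ (Submodule.smul_mem _ (2 * (x * x).trace) hy)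
        (Submodule.smul_mem _ (2 * (x * y).trace) hx)
    have h7 := hun _ _ _ h5 h6
    have h8 : (2 : ℂ) • (((x' * x').trace - (x * x).trace) • y' -
        ((x' * y').trace - (x * y).trace) • x') = 0 := by
      have h9 := sub_eq_zero.2 h7
      rw [← h9]
      module
    exact sub_eq_zero.1 ((smul_eq_zero.1 h8).resolve_left two_ne_zero)
  have hq1 : ∀ x x' : M2, (x, x') ∈ 𝔥 → (x' * x').trace = (x * x).trace := by
    intro x x' hx
    by_contra hne
    -- all `y'` are multiples of `x'`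
    have h4 : ∀ y' : M2, y'.trace = 0 → ∃ c : ℂ, y' = c • x' := by
      intro y' hy'
      obtain ⟨y, hy⟩ := h2 y' hy'
      have h5 := hq x x' hx y y' hy
      have h6 : (x' * x').trace - (x * x).trace ≠ 0 := sub_ne_zero.2 hne
      refine ⟨((x' * x').trace - (x * x).trace)⁻¹ * ((x' * y').trace - (x * y).trace), ?_⟩
      rw [mul_smul, ← h5, smul_smul, inv_mul_cancel₀ h6, one_smul]
    obtain ⟨c, hc⟩ := h4 !![0, 1; 0, 0] (by simp [Matrix.trace_fin_two])
    obtain ⟨d, hd⟩ := h4 !![0, 0; 1, 0] (by simp [Matrix.trace_fin_two])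
    have e1 := congrFun (congrFun hc 0) 1
    have e2 := congrFun (congrFun hc 1) 0
    have e3 := congrFun (congrFun hd 1) 0
    simp only [Matrix.smul_apply, smul_eq_mul, Matrix.of_apply, Matrix.cons_val', Matrix.cons_val_zero,
      Matrix.cons_val_one, Matrix.cons_val_fin_one] at e1 e2 e3
    have hc0 : c ≠ 0 := by
      rintro rfl
      simp at e1
    have h5 : x' 1 0 = 0 := (mul_eq_zero.1 e2.symm).resolve_left hc0
    rw [h5, mul_zero] at e3
    exact one_ne_zero e3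
  have hq2 : ∀ x x' : M2, (x, x') ∈ 𝔥 → ∀ y y' : M2, (y, y') ∈ 𝔥 →
      (x' * y').trace = (x * y).trace := by
    intro x x' hx y y' hy
    have h4 := hq1 _ _ (Submodule.add_mem _ hx hy)
    have e1 : ∀ a b : M2, ((a + b) * (a + b)).trace =
        (a * a).trace + 2 * (a * b).trace + (b * b).trace := by
      intro a b
      rw [Matrix.add_mul, Matrix.mul_add, Matrix.mul_add, Matrix.trace_add, Matrix.trace_add,
        Matrix.trace_add, Matrix.trace_mul_comm b a]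
      ring
    rw [e1, e1, hq1 _ _ hx, hq1 _ _ hy] at h4
    linear_combination h4 / 2
  -- the basis
  obtain ⟨h', hh⟩ := h1 !![1, 0; 0, -1] (by simp [Matrix.trace_fin_two])
  obtain ⟨e', he⟩ := h1 !![0, 1; 0, 0] (by simp [Matrix.trace_fin_two])
  obtain ⟨f', hf⟩ := h1 !![0, 0; 1, 0] (by simp [Matrix.trace_fin_two])
  have th := (htr _ hh).2
  have te := (htr _ he).2
  have tf := (htr _ hf).2
  have hhh : h' * h' = 1 := by
    have h4 := hq2 _ _ hh _ _ hh
    rw [sq th, h4]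
    have : (!![1, 0; 0, -1] * !![1, 0; 0, -1] : M2).trace = 2 := by
      simp [Matrix.trace_fin_two]; norm_num
    rw [this]
    norm_num
  have hff : f' * f' = 0 := by
    have h4 := hq2 _ _ hf _ _ hf
    rw [sq tf, h4]
    have : (!![0, 0; 1, 0] * !![0, 0; 1, 0] : M2).trace = 0 := by
      simp [Matrix.trace_fin_two]
    rw [this]
    simp
  have hhf : h' * f' = -(f' * h') := by
    have h4 := anti th tf
    have : (!![1, 0; 0, -1] * !![0, 0; 1, 0] : M2).trace = 0 := by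
      simp [Matrix.trace_fin_two]
    rw [hq2 _ _ hh _ _ hf, this, zero_smul] at h4
    exact eq_neg_of_add_eq_zero_left h4
  have hhe : h' * e' = -(e' * h') := by
    have h4 := anti th te
    have : (!![1, 0; 0, -1] * !![0, 1; 0, 0] : M2).trace = 0 := by
      simp [Matrix.trace_fin_two]
    rw [hq2 _ _ hh _ _ he, this, zero_smul] at h4
    exact eq_neg_of_add_eq_zero_left h4
  have hef : e' * f' + f' * e' = 1 := by
    have h4 := anti te tf
    have : (!![0, 1; 0, 0] * !![0, 0; 1, 0] : M2).trace = 1 := by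
      simp [Matrix.trace_fin_two]
    rw [hq2 _ _ he _ _ hf, this, one_smul] at h4
    exact h4
  have hhe2 : h' * e' = e' := by
    have h4 := hbr _ hh _ he
    have h5 : (!![0, 1; 0, 0] + !![0, 1; 0, 0] : M2) =
        !![1, 0; 0, -1] * !![0, 1; 0, 0] - !![0, 1; 0, 0] * !![1, 0; 0, -1] := by
      ext i j
      fin_cases i <;> fin_cases j <;> simp
    have h6 : ((!![0, 1; 0, 0] + !![0, 1; 0, 0] : M2), h' * e' - e' * h') ∈ 𝔥 := by
      rw [h5]
      exact h4
    have h7 := hun _ _ _ h6 (Submodule.add_mem _ he he)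
    have h8 : e' * h' = -(h' * e') := by rw [hhe, neg_neg]
    rw [h8, sub_neg_eq_add, ← two_smul ℂ, ← two_smul ℂ] at h7
    exact (smul_right_injective M2 (two_ne_zero (α := ℂ))) h7
  -- a vector
  have hne : h' + 1 ≠ 0 := by
    intro h4
    have h5 : (h' + 1).trace = 0 := by rw [h4, Matrix.trace_zero]
    rw [Matrix.trace_add, th, Matrix.trace_one] at h5
    simp at h5
  obtain ⟨w0, hw0⟩ := exists_mulVec_ne hne
  set w := (h' + 1) *ᵥ w0 with hw
  have hhw : h' *ᵥ w = w := by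
    rw [hw, Matrix.mulVec_mulVec]
    congr 1
    rw [Matrix.mul_add, hhh, Matrix.mul_one, add_comm]
  clear_value w
  have hew : e' *ᵥ w = 0 := by
    have h4 : h' *ᵥ (e' *ᵥ w) = -(e' *ᵥ w) := by
      rw [Matrix.mulVec_mulVec, hhe, Matrix.neg_mulVec, ← Matrix.mulVec_mulVec, hhw]
    have h5 : h' *ᵥ (e' *ᵥ w) = e' *ᵥ w := by rw [Matrix.mulVec_mulVec, hhe2]
    rw [h5] at h4
    have h6 : (2 : ℂ) • (e' *ᵥ w) = 0 := by
      rw [two_smul]
      nth_rewrite 1 [h4]
      rw [neg_add_cancel]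
    exact (smul_eq_zero.1 h6).resolve_left two_ne_zero
  -- the intertwining matrix
  let Z : M2 := Matrix.of fun i j => if j = 0 then w i else (f' *ᵥ w) i
  have hZ0 : Z *ᵥ (Pi.single 0 1) = w := by
    ext i
    rw [Matrix.mulVec_single_one]
    rfl
  have hZ1 : Z *ᵥ (Pi.single 1 1) = f' *ᵥ w := by
    ext i
    rw [Matrix.mulVec_single_one]
    rfl
  have hext : ∀ X Y : M2, X *ᵥ (Pi.single 0 1) = Y *ᵥ (Pi.single 0 1) →
      X *ᵥ (Pi.single 1 1) = Y *ᵥ (Pi.single 1 1) → X = Y := by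
    intro X Y h4 h5
    ext i j
    fin_cases j
    · have := congrFun h4 i
      rw [Matrix.mulVec_single_one, Matrix.mulVec_single_one] at this
      exact this
    · have := congrFun h5 i
      rw [Matrix.mulVec_single_one, Matrix.mulVec_single_one] at this
      exact this
  have b1 : (!![1, 0; 0, -1] : M2) *ᵥ (Pi.single 0 1) = Pi.single 0 1 := by
    ext i; fin_cases i <;> simp
  have b2 : (!![1, 0; 0, -1] : M2) *ᵥ (Pi.single 1 1) = -Pi.single 1 1 := by
    ext i; fin_cases i <;> simp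
  have b3 : (!![0, 0; 1, 0] : M2) *ᵥ (Pi.single 0 1) = Pi.single 1 1 := by
    ext i; fin_cases i <;> simp
  have b4 : (!![0, 0; 1, 0] : M2) *ᵥ (Pi.single 1 1) = 0 := by
    ext i; fin_cases i <;> simp
  have b5 : (!![0, 1; 0, 0] : M2) *ᵥ (Pi.single 0 1) = 0 := by
    ext i; fin_cases i <;> simp
  have b6 : (!![0, 1; 0, 0] : M2) *ᵥ (Pi.single 1 1) = Pi.single 0 1 := by
    ext i; fin_cases i <;> simp
  have zh : Z * !![1, 0; 0, -1] = h' * Z := by
    apply hext
    · rw [← Matrix.mulVec_mulVec, ← Matrix.mulVec_mulVec, b1, hZ0, hhw]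
    · rw [← Matrix.mulVec_mulVec, ← Matrix.mulVec_mulVec, b2, Matrix.mulVec_neg, hZ1,
        Matrix.mulVec_mulVec, hhf, Matrix.neg_mulVec, ← Matrix.mulVec_mulVec, hhw]
  have zf : Z * !![0, 0; 1, 0] = f' * Z := by
    apply hext
    · rw [← Matrix.mulVec_mulVec, ← Matrix.mulVec_mulVec, b3, hZ0, hZ1]
    · rw [← Matrix.mulVec_mulVec, ← Matrix.mulVec_mulVec, b4, Matrix.mulVec_zero, hZ1,
        Matrix.mulVec_mulVec, hff, Matrix.zero_mulVec]
  have ze : Z * !![0, 1; 0, 0] = e' * Z := by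
    apply hext
    · rw [← Matrix.mulVec_mulVec, ← Matrix.mulVec_mulVec, b5, Matrix.mulVec_zero, hZ0, hew]
    · rw [← Matrix.mulVec_mulVec, ← Matrix.mulVec_mulVec, b6, hZ0, hZ1]
      have h4 : (e' * f' + f' * e') *ᵥ w = w := by rw [hef, Matrix.one_mulVec]
      rw [Matrix.add_mulVec, ← Matrix.mulVec_mulVec, ← Matrix.mulVec_mulVec, hew,
        Matrix.mulVec_zero, add_zero] at h4
      exact h4.symm
  have hZ : Z = 0 := by
    refine h3 Z fun x hx => ?_
    obtain ⟨x, x'⟩ := x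
    have h4 := d11 (htr _ hx).1
    have h5 : x = x 0 0 • (!![1, 0; 0, -1] : M2) + x 0 1 • (!![0, 1; 0, 0] : M2) +
        x 1 0 • (!![0, 0; 1, 0] : M2) := by
      ext i j
      fin_cases i <;> fin_cases j <;> simp
      exact h4
    have h6 : (x, x 0 0 • h' + x 0 1 • e' + x 1 0 • f') ∈ 𝔥 := by
      have h7 := Submodule.add_mem _ (Submodule.add_mem _ (Submodule.smul_mem _ (x 0 0) hh)
        (Submodule.smul_mem _ (x 0 1) he)) (Submodule.smul_mem _ (x 1 0) hf)
      rw [Prod.smul_mk, Prod.smul_mk, Prod.smul_mk, Prod.mk_add_mk, Prod.mk_add_mk, ← h5] at h7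
      exact h7
    have h7 := hun _ _ _ hx h6
    change Z * x = x' * Z
    rw [h7]
    conv_lhs => rw [h5]
    rw [Matrix.mul_add, Matrix.mul_add, Matrix.mul_smul, Matrix.mul_smul, Matrix.mul_smul, zh, ze, zf,
      Matrix.add_mul, Matrix.add_mul, Matrix.smul_mul, Matrix.smul_mul, Matrix.smul_mul]
  apply hw0
  rw [← hZ0, hZ, Matrix.zero_mulVec]

/-- Every traceless matrix of size two is a sum of commutators of traceless matrices. -/
theorem perfect (S : Submodule ℂ M2)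
    (h : ∀ a b : M2, a.trace = 0 → b.trace = 0 → a * b - b * a ∈ S) :
    ∀ x : M2, x.trace = 0 → x ∈ S := by
  intro x hx
  have h4 := d11 hx
  have th : (!![1, 0; 0, -1] : M2).trace = 0 := by simp [Matrix.trace_fin_two]
  have te : (!![0, 1; 0, 0] : M2).trace = 0 := by simp [Matrix.trace_fin_two]
  have tf : (!![0, 0; 1, 0] : M2).trace = 0 := by simp [Matrix.trace_fin_two]
  have h5 : x = x 0 0 • ((!![0, 1; 0, 0] : M2) * !![0, 0; 1, 0] - !![0, 0; 1, 0] * !![0, 1; 0, 0]) +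
      (x 0 1 / 2) • ((!![1, 0; 0, -1] : M2) * !![0, 1; 0, 0] - !![0, 1; 0, 0] * !![1, 0; 0, -1]) +
      (x 1 0 / 2) • ((!![0, 0; 1, 0] : M2) * !![1, 0; 0, -1] - !![1, 0; 0, -1] * !![0, 0; 1, 0]) := by
    ext i j
    fin_cases i <;> fin_cases j <;> simp
    · ring
    · ring
    · exact h4
  rw [h5]
  exact Submodule.add_mem _ (Submodule.add_mem _ (Submodule.smul_mem _ _ (h _ _ te tf))
    (Submodule.smul_mem _ _ (h _ _ th te))) (Submodule.smul_mem _ _ (h _ _ tf th))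

/-- **The main lemma**: a Lie algebra of families of traceless matrices of size two, irreducible in all
components, and without intertwining matrices between different components, is everything. -/
theorem core {ι : Type} [Fintype ι] [DecidableEq ι] (𝔥 : Submodule ℂ (ι → M2)) (htr : ∀ x ∈ 𝔥, ∀ i, (x i).trace = 0)
    (hbr : ∀ x ∈ 𝔥, ∀ y ∈ 𝔥, x * y - y * x ∈ 𝔥)
    (h1 : ∀ i, ∀ v : Fin 2 → ℂ, v ≠ 0 → ∃ x ∈ 𝔥, ∀ c : ℂ, x i *ᵥ v ≠ c • v)
    (h2 : ∀ i j, i ≠ j → ∀ Z : M2, (∀ x ∈ 𝔥, Z * x i = x j * Z) → Z = 0) :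
    ∀ x : ι → M2, (∀ i, (x i).trace = 0) → x ∈ 𝔥 := by
  -- one component
  have hone : ∀ i, ∀ a : M2, a.trace = 0 → ∃ x ∈ 𝔥, x i = a := by
    intro i
    have h3 := sl2_of_irred (𝔥.map (LinearMap.proj (R := ℂ) (φ := fun _ : ι => M2) i)) ?_ ?_ ?_
    · intro a ha
      obtain ⟨x, hx, h4⟩ := h3 a ha
      exact ⟨x, hx, h4⟩
    · rintro _ ⟨x, hx, rfl⟩
      exact htr x hx i
    · rintro _ ⟨x, hx, rfl⟩ _ ⟨y, hy, rfl⟩
      exact ⟨_, hbr x hx y hy, rfl⟩
    · intro v hv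
      obtain ⟨x, hx, h4⟩ := h1 i v hv
      exact ⟨x i, ⟨x, hx, rfl⟩, h4⟩
  -- two components
  have htwo : ∀ i j, i ≠ j → ∀ a : M2, a.trace = 0 → ∃ x ∈ 𝔥, x i = a ∧ x j = 0 := by
    intro i j hij
    let pr : (ι → M2) →ₗ[ℂ] M2 × M2 :=
      (LinearMap.proj (R := ℂ) (φ := fun _ : ι => M2) i).prod
        (LinearMap.proj (R := ℂ) (φ := fun _ : ι => M2) j)
    have hpr : ∀ x, pr x = (x i, x j) := fun x => rfl
    have h3 := pair (𝔥.map pr) ?_ ?_ ?_ ?_ ?_
    · intro a ha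
      obtain ⟨x, hx, h4⟩ := h3 a ha
      rw [hpr] at h4
      exact ⟨x, hx, (Prod.mk.inj h4).1, (Prod.mk.inj h4).2⟩
    · rintro _ ⟨x, hx, rfl⟩
      exact ⟨htr x hx i, htr x hx j⟩
    · rintro _ ⟨x, hx, rfl⟩ _ ⟨y, hy, rfl⟩
      exact ⟨_, hbr x hx y hy, rfl⟩
    · intro a ha
      obtain ⟨x, hx, h4⟩ := hone i a ha
      exact ⟨x j, x, hx, by rw [hpr, h4]⟩
    · intro a ha
      obtain ⟨x, hx, h4⟩ := hone j a ha
      exact ⟨x i, x, hx, by rw [hpr, h4]⟩
    · intro Z hZ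
      exact h2 i j hij Z fun x hx => hZ (pr x) ⟨x, hx, rfl⟩
  -- all components
  have hall : ∀ i, ∀ T : Finset ι, i ∉ T → ∀ a : M2, a.trace = 0 →
      ∃ x ∈ 𝔥, x i = a ∧ ∀ j ∈ T, x j = 0 := by
    intro i T
    induction T using Finset.induction_on with
    | empty =>
      intro _ a ha
      obtain ⟨x, hx, h4⟩ := hone i a ha
      exact ⟨x, hx, h4, fun j hj => absurd hj (Finset.notMem_empty j)⟩
    | insert j T hj ih =>
      intro hi
      have hij : i ≠ j := fun h => hi (h ▸ Finset.mem_insert_self _ _)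
      have hiT : i ∉ T := fun h => hi (Finset.mem_insert_of_mem h)
      let S : Submodule ℂ M2 :=
        { carrier := {a | ∃ x ∈ 𝔥, x i = a ∧ ∀ l ∈ insert j T, x l = 0}
          add_mem' := by
            rintro a b ⟨x, hx, rfl, hx'⟩ ⟨y, hy, rfl, hy'⟩
            refine ⟨x + y, Submodule.add_mem _ hx hy, rfl, fun l hl => ?_⟩
            rw [Pi.add_apply, hx' l hl, hy' l hl, add_zero]
          zero_mem' := ⟨0, Submodule.zero_mem _, rfl, fun l _ => rfl⟩
          smul_mem' := by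
            rintro c a ⟨x, hx, rfl, hx'⟩
            refine ⟨c • x, Submodule.smul_mem _ c hx, rfl, fun l hl => ?_⟩
            rw [Pi.smul_apply, hx' l hl, smul_zero] }
      refine perfect S fun a b ha hb => ?_
      obtain ⟨x, hx, hxi, hxT⟩ := ih hiT a ha
      obtain ⟨y, hy, hyi, hyj⟩ := htwo i j hij b hb
      refine ⟨x * y - y * x, hbr x hx y hy, ?_, fun l hl => ?_⟩
      · rw [Pi.sub_apply, Pi.mul_apply, Pi.mul_apply, hxi, hyi]
      · rw [Pi.sub_apply, Pi.mul_apply, Pi.mul_apply]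
        rcases Finset.mem_insert.1 hl with rfl | hl
        · rw [hyj, mul_zero, zero_mul, sub_zero]
        · rw [hxT l hl, zero_mul, mul_zero, sub_zero]
  intro x hx
  have h3 : ∀ i, Pi.single i (x i) ∈ 𝔥 := by
    intro i
    obtain ⟨z, hz, hzi, hz0⟩ := hall i (Finset.univ.erase i) (Finset.notMem_erase _ _) (x i) (hx i)
    have h4 : z = Pi.single i (x i) := by
      funext l
      by_cases h : l = i
      · subst h
        rw [hzi, Pi.single_eq_same]
      · rw [Pi.single_eq_of_ne h, hz0 l (Finset.mem_erase.2 ⟨h, Finset.mem_univ _⟩)]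
    rw [← h4]
    exact hz
  have h4 : x = ∑ i, Pi.single i (x i) := (Finset.univ_sum_single x).symm
  rw [h4]
  exact Submodule.sum_mem _ fun i _ => h3 i

end Pool.Agent.U400.PD
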