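import Pool.Agent.U400.PD.Sep

set_option autoImplicit false
set_option linter.unusedSectionVars false

/-!
# Families of summands of dimension two
-/

open Module Function TensorProduct Matrix

noncomputable section

namespace Pool.Agent.U400.PD

open Pool.Agent.Y102 Pool.Agent.W516.DR Pool.Agent.H204R3.GP Pool.Agent.W516.KC
  Pool.Agent.H204R3.SP Pool.Agent.TH119.MX Pool.Agent.R917 Pool.Agent.N208.AM Pool.Agent.N113.BT

variable {g k : ℕ} (A : AbVar g) (P : Fin k → Matrix (Fin (2 * g)) (Fin 2) ℂ)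
  (Q : Fin k → Matrix (Fin 2) (Fin (2 * g)) ℂ)

/-- The derived algebra acts on the two summands by equivalent representations. -/
def SameC (i j : Fin k) : Prop :=
  ∃ Z : M2, Z.det ≠ 0 ∧ ∀ X ∈ der A.NA, Z * (Q i * toC X * P i) = (Q j * toC X * P j) * Z

/-- The traces are equal. -/
def SameT (i j : Fin k) : Prop :=
  ∀ X ∈ A.NA, (Q i * toC X * P i).trace = (Q j * toC X * P j).trace

/-- The summands are separated by the real forms of their conjugates. -/
def SepC (i j : Fin k) : Prop :=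
  ∃ s : ℂ ≃+* ℂ,
    (∀ X ∈ der A.NA, ∃ ρ : ℝ, s (((Q i * toC X * P i) * (Q i * toC X * P i)).trace) = ρ) ∧
    (∃ X ∈ der A.NA, ∃ ρ : ℝ, 0 < ρ ∧
      s (((Q i * toC X * P i) * (Q i * toC X * P i)).trace) = ρ) ∧
    ∀ X ∈ der A.NA, ∃ ρ : ℝ, ρ ≤ 0 ∧ s (((Q j * toC X * P j) * (Q j * toC X * P j)).trace) = ρ

variable {A P Q}

theorem SameC.refl (i : Fin k) : SameC A P Q i i :=
  ⟨1, by rw [Matrix.det_one]; exact one_ne_zero, fun X _ => by rw [Matrix.one_mul, Matrix.mul_one]⟩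

theorem inv_twine {Z a b : M2} (hd : Z.det ≠ 0) (h : Z * a = b * Z) : Z⁻¹ * b = a * Z⁻¹ := by
  have hu := isUnit_iff_ne_zero.2 hd
  calc Z⁻¹ * b = Z⁻¹ * b * (Z * Z⁻¹) := by rw [Matrix.mul_nonsing_inv _ hu, Matrix.mul_one]
    _ = Z⁻¹ * (b * Z) * Z⁻¹ := by simp only [Matrix.mul_assoc]
    _ = Z⁻¹ * (Z * a) * Z⁻¹ := by rw [h]
    _ = (Z⁻¹ * Z) * a * Z⁻¹ := by simp only [Matrix.mul_assoc]
    _ = a * Z⁻¹ := by rw [Matrix.nonsing_inv_mul _ hu, Matrix.one_mul]

theorem SameC.symm {i j : Fin k} (h : SameC A P Q i j) : SameC A P Q j i := by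
  obtain ⟨Z, hd, h⟩ := h
  have hu := isUnit_iff_ne_zero.2 hd
  have h1 : Z * Z⁻¹ = 1 := Matrix.mul_nonsing_inv _ hu
  refine ⟨Z⁻¹, ?_, fun X hX => inv_twine hd (h X hX)⟩
  intro h0
  have h3 := congrArg Matrix.det h1
  rw [Matrix.det_mul, h0, mul_zero, Matrix.det_one] at h3
  exact zero_ne_one h3

theorem SameC.trans {i j l : Fin k} (h : SameC A P Q i j) (h' : SameC A P Q j l) :
    SameC A P Q i l := by
  obtain ⟨Z, hd, h⟩ := h
  obtain ⟨Z', hd', h'⟩ := h'
  refine ⟨Z' * Z, by rw [Matrix.det_mul]; exact mul_ne_zero hd' hd, fun X hX => ?_⟩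
  rw [Matrix.mul_assoc, h X hX, ← Matrix.mul_assoc, h' X hX, Matrix.mul_assoc]

/-- The condition on the pairs. -/
def Pairs (A : AbVar g) (P : Fin k → Matrix (Fin (2 * g)) (Fin 2) ℂ)
    (Q : Fin k → Matrix (Fin 2) (Fin (2 * g)) ℂ) : Prop :=
  ∀ i j, SameC A P Q i j ∨ (∃ i' j', SameC A P Q i i' ∧ SameC A P Q j j' ∧ SameT A P Q i' j') ∨
    SepC A P Q i j ∨ SepC A P Q j i

variable {𝔮 : Submodule ℚ (Module.End ℚ A.H1)}

theorem der_mono' (hq : A.Full 𝔮) : der 𝔮 ≤ der A.NA := by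
  unfold der
  exact Submodule.span_mono fun _ ⟨X, hX, Y, hY, e⟩ => ⟨X, hq.le hX, Y, hq.le hY, e⟩

theorem SepC.twine (h : ∀ i, Planar A (P i) (Q i)) (hq : A.Full 𝔮) {i j : Fin k}
    (hs : SepC A P Q i j) {Z : M2}
    (hZ : ∀ x ∈ cx (der 𝔮), Z * cor (P i) (Q i) x = cor (P j) (Q j) x * Z) : Z = 0 := by
  obtain ⟨s, h1, h2, h3⟩ := hs
  refine (h i).sep s (h j) hq (der_mono' hq) ?_ ?_ ?_ hZ
  · intro X hX
    rw [cor_bc]
    exact h1 X hX
  · obtain ⟨X, hX, ρ, hρ, h4⟩ := h2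
    refine ⟨X, hX, ρ, hρ, ?_⟩
    rw [cor_bc]
    exact h4
  · intro X hX
    rw [cor_bc]
    exact h3 X hX

/-- The intertwining matrices for the derived algebra of a full subalgebra. -/
theorem Pairs.twine (h : ∀ i, Planar A (P i) (Q i)) (hp : Pairs A P Q) (hq : A.Full 𝔮) {i j : Fin k}
    (hij : ¬ SameC A P Q i j) {Z : M2}
    (hZ : ∀ x ∈ cx (der 𝔮), Z * cor (P i) (Q i) x = cor (P j) (Q j) x * Z) : Z = 0 := by
  rcases hp i j with h1 | ⟨i', j', h1, h2, h3⟩ | h1 | h1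
  · exact absurd h1 hij
  · -- the same traces
    have hne : ∀ Z : M2, (∀ x ∈ cx A.NA, Z * cor (P i') (Q i') x = cor (P j') (Q j') x * Z) →
        Z = 0 := by
      intro Z hZ
      by_contra h0
      apply hij
      have hdet : Z.det ≠ 0 := by
        refine schur (T := (cx A.NA : Set (Module.End ℂ (ℂ ⊗[ℚ] A.H1)))) (fun v hv => ?_) hZ h0
        obtain ⟨X, hX, hc⟩ := (h i').simple v hv
        refine ⟨_, bc_mem hX, fun c => ?_⟩
        rw [cor_bc]
        exact hc c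
      have h4 : SameC A P Q i' j' := ⟨Z, hdet, fun X hX => by
        rw [← cor_bc, ← cor_bc]
        exact hZ _ (bc_mem (der_NA_le hX))⟩
      exact h1.trans (h4.trans h2.symm)
    have hs := (h i').surj_two (h j') hq (trace_cx h3) hne
    obtain ⟨Zi, hdi, hi⟩ := h1.symm
    obtain ⟨Zj, hdj, hj⟩ := h2
    have hi' := twine_cx (T := der A.NA) hi
    have hj' := twine_cx (T := der A.NA) hj
    have hmono : ∀ x ∈ cx (der 𝔮), x ∈ cx (der A.NA) := fun x hx => cx_mono (der_mono' hq) hx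
    have hW : ∀ x ∈ cx (der 𝔮), (Zj * Z * Zi) * cor (P i') (Q i') x =
        cor (P j') (Q j') x * (Zj * Z * Zi) := by
      intro x hx
      calc (Zj * Z * Zi) * cor (P i') (Q i') x = Zj * Z * (Zi * cor (P i') (Q i') x) := by
            simp only [Matrix.mul_assoc]
        _ = Zj * (Z * cor (P i) (Q i) x) * Zi := by
            rw [hi' x (hmono x hx)]; simp only [Matrix.mul_assoc]
        _ = Zj * cor (P j) (Q j) x * Z * Zi := by rw [hZ x hx]; simp only [Matrix.mul_assoc]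
        _ = _ := by rw [hj' x (hmono x hx)]; simp only [Matrix.mul_assoc]
    have hW0 : Zj * Z * Zi = 0 := by
      obtain ⟨x, hx, h4, h5⟩ := hs !![1, 0; 0, -1] (by simp [Matrix.trace_fin_two])
      have h6 := hW x hx
      rw [h4, h5, Matrix.zero_mul] at h6
      have h7 : (!![1, 0; 0, -1] * !![1, 0; 0, -1] : M2) = 1 := by
        ext a b
        fin_cases a <;> fin_cases b <;> simp
      calc Zj * Z * Zi = Zj * Z * Zi * !![1, 0; 0, -1] * !![1, 0; 0, -1] := by
            rw [Matrix.mul_assoc (Zj * Z * Zi), h7, Matrix.mul_one]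
        _ = 0 := by rw [h6, Matrix.zero_mul]
    have hui := isUnit_iff_ne_zero.2 hdi
    have huj := isUnit_iff_ne_zero.2 hdj
    calc Z = (Zj⁻¹ * Zj) * Z * (Zi * Zi⁻¹) := by
          rw [Matrix.nonsing_inv_mul _ huj, Matrix.mul_nonsing_inv _ hui, Matrix.one_mul,
            Matrix.mul_one]
      _ = Zj⁻¹ * (Zj * Z * Zi) * Zi⁻¹ := by simp only [Matrix.mul_assoc]
      _ = 0 := by rw [hW0, Matrix.mul_zero, Matrix.zero_mul]
  · exact h1.twine h hq hZ
  · -- the inverse matrix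
    by_contra h0
    have hdet : Z.det ≠ 0 := schur (T := (cx (der 𝔮) : Set (Module.End ℂ (ℂ ⊗[ℚ] A.H1))))
      (fun v hv => (h i).irr_der hq hv) hZ h0
    have hu := isUnit_iff_ne_zero.2 hdet
    have e1 : Z * Z⁻¹ = 1 := Matrix.mul_nonsing_inv _ hu
    have h2 : Z⁻¹ = 0 := h1.twine h hq fun x hx => inv_twine hdet (hZ x hx)
    rw [h2, Matrix.mul_zero] at e1
    have h3 := congrFun (congrFun e1 0) 0
    rw [Matrix.zero_apply, Matrix.one_apply_eq] at h3
    exact zero_ne_one h3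

/-- **The family of summands determines the derived algebras.** -/
theorem det_of (h : ∀ i, Planar A (P i) (Q i)) (hp : Pairs A P Q) :
    Det A (fun i => matE (2 * g) (P i * Q i)) := by
  refine ⟨fun i => (h i).comm, fun 𝔮 hq X hX => ?_⟩
  classical
  let r : Setoid (Fin k) := ⟨SameC A P Q, SameC.refl, SameC.symm, SameC.trans⟩
  let ι : Type := Quotient r
  have : Fintype ι := Quotient.fintype r
  let o : ι → Fin k := Quotient.out
  have ho : ∀ q q' : ι, SameC A P Q (o q) (o q') → q = q' := by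
    intro q q' hqq
    have h1 : (Quotient.mk r (o q)) = Quotient.mk r (o q') := Quotient.sound hqq
    rwa [Quotient.out_eq, Quotient.out_eq] at h1
  have ho' : ∀ i : Fin k, SameC A P Q i (o (Quotient.mk r i)) := by
    intro i
    exact (Quotient.exact (Quotient.out_eq (Quotient.mk r i))).symm
  let f : Module.End ℂ (ℂ ⊗[ℚ] A.H1) →ₗ[ℂ] (ι → M2) :=
    LinearMap.pi fun q => cor (P (o q)) (Q (o q))
  have hf : ∀ x q, f x q = cor (P (o q)) (Q (o q)) x := fun x q => rfl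
  have hqN : ∀ x ∈ cx (der 𝔮), x ∈ cx A.NA := fun x hx =>
    cx_mono (hq.der_le.trans hq.le) hx
  have hcore := core ((cx (der 𝔮)).map f) ?_ ?_ ?_ ?_
  · obtain ⟨y, hy, hyf⟩ := hcore (f (X.baseChange ℂ)) fun q => by
      rw [hf]
      exact (h (o q)).der_trace le_rfl _ (bc_mem hX)
    refine ⟨y, hy, fun i => ?_⟩
    have h1 : X.baseChange ℂ - y ∈ cx (der A.NA) :=
      Submodule.sub_mem _ (bc_mem hX) (cx_mono (der_mono' hq) hy)
    have h2 : cor (P i) (Q i) (X.baseChange ℂ - y) = 0 := by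
      obtain ⟨Z, hdet, hZ⟩ := ho' i
      have h3 := twine_cx (T := der A.NA) hZ _ h1
      have h4 : cor (P (o (Quotient.mk r i))) (Q (o (Quotient.mk r i))) (X.baseChange ℂ - y) = 0 := by
        have h5 := congrFun hyf (Quotient.mk r i)
        rw [hf, hf] at h5
        rw [map_sub, h5, sub_self]
      rw [h4, Matrix.zero_mul] at h3
      have hu := isUnit_iff_ne_zero.2 hdet
      calc cor (P i) (Q i) (X.baseChange ℂ - y)
          = Z⁻¹ * (Z * cor (P i) (Q i) (X.baseChange ℂ - y)) := by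
            rw [← Matrix.mul_assoc, Matrix.nonsing_inv_mul _ hu, Matrix.one_mul]
        _ = 0 := by rw [h3, Matrix.mul_zero]
    have h3 := cor_zero_iff ((h i).comm _ (cx_mono der_NA_le h1)) h2 (h i).proj
    rw [mul_sub, sub_eq_zero] at h3
    exact h3
  · rintro _ ⟨x, hx, rfl⟩ q
    exact (h (o q)).der_trace hq.le x hx
  · rintro _ ⟨x, hx, rfl⟩ _ ⟨y, hy, rfl⟩
    refine ⟨x * y - y * x, cx_br_der x (cx_mono hq.der_le hx) y (cx_mono hq.der_le hy), ?_⟩
    funext q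
    rw [hf, (h (o q)).cor_br (hqN x hx) (hqN y hy)]
    rfl
  · intro q v hv
    obtain ⟨x, hx, h1⟩ := (h (o q)).irr_der hq hv
    exact ⟨f x, ⟨x, hx, rfl⟩, h1⟩
  · intro q q' hqq Z hZ
    exact hp.twine h hq (fun hs => hqq (ho q q' hs)) fun x hx => hZ (f x) ⟨x, hx, rfl⟩

end Pool.Agent.U400.PD
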