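import Pool.Agent.U400.PD.Colour

set_option autoImplicit false
set_option linter.unusedSectionVars false

/-!
# Summands of dimension two which are separated by the real forms of their conjugates
-/

open Module Function TensorProduct Matrix

noncomputable section

namespace Pool.Agent.U400.PD

open Pool.Agent.Y102 Pool.Agent.W516.DR Pool.Agent.H204R3.GP Pool.Agent.W516.KC
  Pool.Agent.H204R3.SP Pool.Agent.TH119.MX Pool.Agent.R917 Pool.Agent.N208.AM Pool.Agent.N113.BT

/-- An automorphism of the complex numbers, applied to the entries of a matrix. -/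
def Sm (s : ℂ ≃+* ℂ) : M2 →+* M2 := (s : ℂ →+* ℂ).mapMatrix

theorem Sm_apply (s : ℂ ≃+* ℂ) (x : M2) (i j : Fin 2) : Sm s x i j = s (x i j) := rfl

theorem Sm_trace (s : ℂ ≃+* ℂ) (x : M2) : (Sm s x).trace = s x.trace := by
  rw [Matrix.trace_fin_two, Matrix.trace_fin_two, map_add, Sm_apply, Sm_apply]

theorem Sm_smul (s : ℂ ≃+* ℂ) (c : ℂ) (x : M2) : Sm s (c • x) = s c • Sm s x := by
  ext i j
  rw [Sm_apply, Matrix.smul_apply, Matrix.smul_apply, smul_eq_mul, smul_eq_mul, map_mul, Sm_apply]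

theorem Sm_symm (s : ℂ ≃+* ℂ) (x : M2) : Sm s (Sm s.symm x) = x := by
  ext i j
  rw [Sm_apply, Sm_apply, RingEquiv.apply_symm_apply]

theorem rsmul (t : ℝ) (x : M2) : t • x = (t : ℂ) • x := by
  ext i j
  rw [Matrix.smul_apply, Matrix.smul_apply, Complex.real_smul, smul_eq_mul]

section parts

variable {g k : ℕ} {A : AbVar g} {P : Matrix (Fin (2 * g)) (Fin 2) ℂ}
  {Q : Matrix (Fin 2) (Fin (2 * g)) ℂ} {P' : Matrix (Fin (2 * g)) (Fin 2) ℂ}
  {Q' : Matrix (Fin 2) (Fin (2 * g)) ℂ} {𝔮 : Submodule ℚ (Module.End ℚ A.H1)}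

theorem Planar.irr_der (h : Planar A P Q) (hq : A.Full 𝔮) {v : Fin 2 → ℂ} (hv : v ≠ 0) :
    ∃ x ∈ cx (der 𝔮), ∀ c : ℂ, cor P Q x *ᵥ v ≠ c • v := by
  by_cases h0 : v 0 = 0
  · have h1 : v 1 ≠ 0 := by
      intro h1
      apply hv
      ext i
      fin_cases i
      · exact h0
      · exact h1
    obtain ⟨x, hx, h2⟩ := h.surj_der hq !![0, 1; 0, 0] (by simp [Matrix.trace_fin_two])
    refine ⟨x, hx, fun c hc => h1 ?_⟩
    rw [h2] at hc
    have h3 := congrFun hc 0
    simp [Matrix.mulVec, dotProduct, Fin.sum_univ_two, h0] at h3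
    exact h3
  · obtain ⟨x, hx, h2⟩ := h.surj_der hq !![0, 0; 1, 0] (by simp [Matrix.trace_fin_two])
    refine ⟨x, hx, fun c hc => h0 ?_⟩
    rw [h2] at hc
    have h3 := congrFun hc 0
    have h4 := congrFun hc 1
    simp [Matrix.mulVec, dotProduct, Fin.sum_univ_two] at h3 h4
    rcases h3 with h3 | h3
    · rw [h4, h3, zero_mul]
    · exact h3

theorem bc_smul (c : ℚ) (X : Module.End ℚ A.H1) :
    (c • X).baseChange ℂ = (c : ℂ) • (X.baseChange ℂ : Module.End ℂ (ℂ ⊗[ℚ] A.H1)) := by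
  rw [LinearMap.baseChange_smul]
  exact (Rat.cast_smul_eq_qsmul ℂ c _).symm

/-- The real span. -/
def RR (s : ℂ ≃+* ℂ) (P : Matrix (Fin (2 * g)) (Fin 2) ℂ) (Q : Matrix (Fin 2) (Fin (2 * g)) ℂ)
    (T : Submodule ℚ (Module.End ℚ A.H1)) : Submodule ℝ M2 :=
  Submodule.span ℝ {z | ∃ X ∈ T, z = Sm s (cor P Q (X.baseChange ℂ))}

theorem RR_cx (s : ℂ ≃+* ℂ) {T : Submodule ℚ (Module.End ℚ A.H1)} :
    ∀ x ∈ cx T, ∃ u ∈ RR s P Q T, ∃ v ∈ RR s P Q T, Sm s (cor P Q x) = u + Complex.I • v := by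
  intro x hx
  induction hx using Submodule.span_induction with
  | mem x hx =>
    obtain ⟨X, hX, rfl⟩ := hx
    exact ⟨_, Submodule.subset_span ⟨X, hX, rfl⟩, 0, Submodule.zero_mem _, by
      rw [smul_zero, add_zero]⟩
  | zero => exact ⟨0, Submodule.zero_mem _, 0, Submodule.zero_mem _, by
      rw [map_zero, map_zero, smul_zero, add_zero]⟩
  | add a b _ _ ha hb =>
    obtain ⟨u, hu, v, hv, h1⟩ := ha
    obtain ⟨u', hu', v', hv', h2⟩ := hb
    refine ⟨u + u', Submodule.add_mem _ hu hu', v + v', Submodule.add_mem _ hv hv', ?_⟩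
    rw [map_add, map_add, h1, h2]
    module
  | smul c a _ ha =>
    obtain ⟨u, hu, v, hv, h1⟩ := ha
    refine ⟨(s c).re • u - (s c).im • v, Submodule.sub_mem _ (Submodule.smul_mem _ _ hu)
      (Submodule.smul_mem _ _ hv), (s c).im • u + (s c).re • v, Submodule.add_mem _
      (Submodule.smul_mem _ _ hu) (Submodule.smul_mem _ _ hv), ?_⟩
    rw [map_smul, Sm_smul, h1, rsmul, rsmul, rsmul, rsmul]
    have h2 : s c = ((s c).re : ℂ) + ((s c).im : ℂ) * Complex.I := (Complex.re_add_im _).symm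
    have h3 : Complex.I * Complex.I = -1 := Complex.I_mul_I
    set a := ((s c).re : ℂ)
    set b := ((s c).im : ℂ)
    rw [h2]
    ext i j
    simp only [Matrix.smul_apply, Matrix.add_apply, Matrix.sub_apply, smul_eq_mul]
    linear_combination (b * v i j) * h3

theorem Planar.sep (s : ℂ ≃+* ℂ) (h : Planar A P Q) (h' : Planar A P' Q') (hq : A.Full 𝔮)
    (hdq : der 𝔮 ≤ der A.NA)
    (hreal : ∀ X ∈ der A.NA, ∃ ρ : ℝ,
      s ((cor P Q (X.baseChange ℂ) * cor P Q (X.baseChange ℂ)).trace) = ρ)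
    (hpos : ∃ X ∈ der A.NA, ∃ ρ : ℝ, 0 < ρ ∧
      s ((cor P Q (X.baseChange ℂ) * cor P Q (X.baseChange ℂ)).trace) = ρ)
    (hneg : ∀ X ∈ der A.NA, ∃ ρ : ℝ, ρ ≤ 0 ∧
      s ((cor P' Q' (X.baseChange ℂ) * cor P' Q' (X.baseChange ℂ)).trace) = ρ)
    {Z : M2} (hZ : ∀ x ∈ cx (der 𝔮), Z * cor P Q x = cor P' Q' x * Z) : Z = 0 := by
  by_contra h0
  have hdet : Z.det ≠ 0 := schur (T := (cx (der 𝔮) : Set (Module.End ℂ (ℂ ⊗[ℚ] A.H1))))
    (fun v hv => h.irr_der hq hv) hZ h0
  have hZi : Z * Z⁻¹ = 1 := Matrix.mul_nonsing_inv _ (isUnit_iff_ne_zero.2 hdet)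
  have hZi' : Z⁻¹ * Z = 1 := Matrix.nonsing_inv_mul _ (isUnit_iff_ne_zero.2 hdet)
  have htr : ∀ x ∈ cx (der 𝔮), (cor P Q x * cor P Q x).trace =
      (cor P' Q' x * cor P' Q' x).trace := by
    intro x hx
    have h1 : cor P' Q' x = Z * cor P Q x * Z⁻¹ := by
      rw [hZ x hx, Matrix.mul_assoc, hZi, Matrix.mul_one]
    have h2 : cor P' Q' x * cor P' Q' x = Z * (cor P Q x * cor P Q x) * Z⁻¹ := by
      rw [h1]
      calc Z * cor P Q x * Z⁻¹ * (Z * cor P Q x * Z⁻¹)
          = Z * cor P Q x * (Z⁻¹ * Z) * cor P Q x * Z⁻¹ := by simp only [Matrix.mul_assoc]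
        _ = _ := by rw [hZi', Matrix.mul_one]; simp only [Matrix.mul_assoc]
    rw [h2, Matrix.trace_mul_comm (Z * _) Z⁻¹, ← Matrix.mul_assoc, hZi', Matrix.one_mul]
  -- the generators
  have hgt : ∀ X ∈ der A.NA, (Sm s (cor P Q (X.baseChange ℂ))).trace = 0 := by
    intro X hX
    rw [Sm_trace, h.der_trace le_rfl _ (bc_mem hX), map_zero]
  -- the pairing is real
  have hre : ∀ X ∈ der A.NA, ∀ Y ∈ der A.NA,
      ((Sm s (cor P Q (X.baseChange ℂ)) * Sm s (cor P Q (Y.baseChange ℂ))).trace).im = 0 := by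
    intro X hX Y hY
    obtain ⟨a, ha⟩ := hreal X hX
    obtain ⟨b, hb⟩ := hreal Y hY
    obtain ⟨c, hc⟩ := hreal (X + Y) (Submodule.add_mem _ hX hY)
    rw [LinearMap.baseChange_add, map_add] at hc
    set x := cor P Q (X.baseChange ℂ)
    set y := cor P Q (Y.baseChange ℂ)
    rw [← map_mul, Sm_trace]
    have h1 : ((x + y) * (x + y)).trace = (x * x).trace + 2 * (x * y).trace + (y * y).trace := by
      rw [Matrix.add_mul, Matrix.mul_add, Matrix.mul_add, Matrix.trace_add, Matrix.trace_add,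
        Matrix.trace_add, Matrix.trace_mul_comm y x]
      ring
    rw [h1, map_add, map_add, map_mul, ha, hb, map_ofNat] at hc
    have h2 : s ((x * y).trace) = (((c - a - b) / 2 : ℝ) : ℂ) := by
      push_cast
      linear_combination hc / 2
    rw [h2, Complex.ofReal_im]
  have hre1 : ∀ u ∈ RR s P Q (der 𝔮), ∀ Y ∈ der A.NA,
      ((u * Sm s (cor P Q (Y.baseChange ℂ))).trace).im = 0 := by
    intro u hu Y hY
    induction hu using Submodule.span_induction with
    | mem u hu =>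
      obtain ⟨X, hX, rfl⟩ := hu
      exact hre X (hdq hX) Y hY
    | zero => rw [Matrix.zero_mul, Matrix.trace_zero, Complex.zero_im]
    | add a b _ _ ha hb => rw [Matrix.add_mul, Matrix.trace_add, Complex.add_im, ha, hb, add_zero]
    | smul c a _ ha =>
      rw [rsmul, Matrix.smul_mul, Matrix.trace_smul, smul_eq_mul, Complex.im_ofReal_mul, ha, mul_zero]
  have hrt : ∀ u ∈ RR s P Q (der 𝔮), u.trace = 0 := by
    intro u hu
    induction hu using Submodule.span_induction with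
    | mem u hu =>
      obtain ⟨X, hX, rfl⟩ := hu
      exact hgt X (hdq hX)
    | zero => exact Matrix.trace_zero _ _
    | add a b _ _ ha hb => rw [Matrix.trace_add, ha, hb, add_zero]
    | smul c a _ ha => rw [Matrix.trace_smul, ha, smul_zero]
  -- every traceless matrix
  have hall : ∀ a : M2, a.trace = 0 → ∃ u ∈ RR s P Q (der 𝔮), ∃ v ∈ RR s P Q (der 𝔮),
      a = u + Complex.I • v := by
    intro a ha
    obtain ⟨x, hx, hxa⟩ := h.surj_der hq (Sm s.symm a) (by rw [Sm_trace, ha, map_zero])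
    obtain ⟨u, hu, v, hv, h1⟩ := RR_cx (P := P) (Q := Q) s x hx
    rw [hxa, Sm_symm] at h1
    exact ⟨u, hu, v, hv, h1⟩
  -- the form is negative on the real span
  have hle : ∀ z ∈ RR s P Q (der 𝔮), ((z * z).trace).re ≤ 0 := by
    intro z hz
    obtain ⟨m, f, d, rfl⟩ := Submodule.mem_span_set'.1 hz
    have hcont : Continuous fun t : Fin m → ℝ =>
        (((∑ i, t i • (d i : M2)) * (∑ i, t i • (d i : M2))).trace).re := by
      have h1 : Continuous fun t : Fin m → ℝ => ∑ i, t i • (d i : M2) :=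
        continuous_finset_sum _ fun i _ => (continuous_apply i).smul continuous_const
      exact Complex.continuous_re.comp (h1.matrix_mul h1).matrix_trace
    have hd := DenseRange.piMap (ι := Fin m) (X := fun _ => ℚ) (Y := fun _ => ℝ)
      (f := fun _ => ((↑) : ℚ → ℝ)) (fun _ => Rat.denseRange_cast)
    refine hd.induction_on (p := fun t : Fin m → ℝ =>
      (((∑ i, t i • (d i : M2)) * (∑ i, t i • (d i : M2))).trace).re ≤ 0) f
      (isClosed_le hcont continuous_const) fun q => ?_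
    choose X hX hXd using fun i => (d i).2
    have h1 : (∑ i, (Pi.map (fun _ => ((↑) : ℚ → ℝ)) q) i • (d i : M2)) =
        Sm s (cor P Q ((∑ i, q i • X i : Module.End ℚ A.H1).baseChange ℂ)) := by
      have h2 : ((∑ i, q i • X i : Module.End ℚ A.H1).baseChange ℂ) =
          ∑ i, (q i : ℂ) • ((X i).baseChange ℂ : Module.End ℂ (ℂ ⊗[ℚ] A.H1)) := by
        have h3 : ∀ T : Finset (Fin m), ((∑ i ∈ T, q i • X i : Module.End ℚ A.H1).baseChange ℂ) =
            ∑ i ∈ T, (q i : ℂ) • ((X i).baseChange ℂ : Module.End ℂ (ℂ ⊗[ℚ] A.H1)) := by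
          intro T
          induction T using Finset.induction_on with
          | empty => simp [LinearMap.baseChange_zero]
          | insert a T ha ih =>
            rw [Finset.sum_insert ha, Finset.sum_insert ha, LinearMap.baseChange_add, ih, bc_smul]
        exact h3 _
      rw [h2, map_sum, map_sum]
      refine Finset.sum_congr rfl fun i _ => ?_
      rw [map_smul, Sm_smul, hXd i, rsmul, map_ratCast]
      rfl
    have hXm : (∑ i, q i • X i) ∈ der 𝔮 :=
      Submodule.sum_mem _ fun i _ => Submodule.smul_mem _ _ (hX i)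
    obtain ⟨ρ, hρ, h2⟩ := hneg _ (hdq hXm)
    rw [← htr _ (bc_mem hXm), ← Sm_trace, map_mul, ← h1] at h2
    change _ ≤ _
    rw [h2, Complex.ofReal_re]
    exact hρ
  -- conclusion
  obtain ⟨Y, hY, ρ, hρ, hYρ⟩ := hpos
  obtain ⟨u, hu, v, hv, huv⟩ := hall _ (hgt Y hY)
  have hv0 : v = 0 := by
    by_contra hv0
    obtain ⟨y, hy, hyv⟩ := exists_dual (hrt v hv) hv0
    apply hyv
    have h1 : ∀ X ∈ der 𝔮, (v * Sm s (cor P Q (X.baseChange ℂ))).trace = 0 := by
      intro X hX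
      have h2 := hre Y hY X (hdq hX)
      rw [huv, Matrix.add_mul, Matrix.trace_add, Matrix.smul_mul, Matrix.trace_smul, smul_eq_mul,
        Complex.add_im, hre1 u hu X (hdq hX), zero_add, Complex.I_mul_im] at h2
      exact Complex.ext h2 (hre1 v hv X (hdq hX))
    have h2 : ∀ z ∈ RR s P Q (der 𝔮), (v * z).trace = 0 := by
      intro z hz
      induction hz using Submodule.span_induction with
      | mem z hz =>
        obtain ⟨X, hX, rfl⟩ := hz
        exact h1 X hX
      | zero => rw [Matrix.mul_zero, Matrix.trace_zero]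
      | add a b _ _ ha hb => rw [Matrix.mul_add, Matrix.trace_add, ha, hb, add_zero]
      | smul c a _ ha => rw [rsmul, Matrix.mul_smul, Matrix.trace_smul, ha, smul_zero]
    obtain ⟨a, ha, b, hb, rfl⟩ := hall y hy
    rw [Matrix.trace_mul_comm, Matrix.mul_add, Matrix.trace_add, h2 a ha, Matrix.mul_smul,
      Matrix.trace_smul, h2 b hb, smul_zero, add_zero]
  rw [hv0, smul_zero, add_zero] at huv
  have h1 := hle u hu
  rw [← huv, ← map_mul, Sm_trace, hYρ, Complex.ofReal_re] at h1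
  linarith

end parts

end Pool.Agent.U400.PD
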