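import Mathlib

set_option autoImplicit false

/-!
# Lie algebras of matrices of size two
-/

open Matrix

namespace Pool.Agent.U400.PD

/-- the matrices of size two -/
abbrev M2 : Type := Matrix (Fin 2) (Fin 2) ℂ

theorem d11 {x : M2} (hx : x.trace = 0) : x 1 1 = -x 0 0 := by
  rw [Matrix.trace_fin_two] at hx
  linear_combination hx

/-- Traceless matrices: `x y + y x = tr (x y)`. -/
theorem anti {x y : M2} (hx : x.trace = 0) (hy : y.trace = 0) :
    x * y + y * x = (x * y).trace • (1 : M2) := by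
  have h1 := d11 hx
  have h2 := d11 hy
  ext i j
  fin_cases i <;> fin_cases j <;>
    simp [Matrix.mul_apply, Matrix.trace_fin_two, Fin.sum_univ_two, h1, h2] <;> ring

/-- `[x, [x, y]] = 2 tr (x ^ 2) y - 2 tr (x y) x` for traceless matrices. -/
theorem brbr {x y : M2} (hx : x.trace = 0) (hy : y.trace = 0) :
    x * (x * y - y * x) - (x * y - y * x) * x =
      (2 * (x * x).trace) • y - (2 * (x * y).trace) • x := by
  have h1 := d11 hx
  have h2 := d11 hy
  ext i j
  fin_cases i <;> fin_cases j <;>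
    simp [Matrix.mul_apply, Matrix.trace_fin_two, Fin.sum_univ_two, h1, h2] <;> ring

theorem sq {x : M2} (hx : x.trace = 0) : x * x = ((x * x).trace / 2) • (1 : M2) := by
  have h := anti hx hx
  have h2 : (2 : ℂ) • (x * x) = (x * x).trace • (1 : M2) := by rw [two_smul]; exact h
  calc x * x = (1 / 2 : ℂ) • ((2 : ℂ) • (x * x)) := by rw [smul_smul]; norm_num
    _ = _ := by rw [h2, smul_smul]; congr 1; ring

theorem br_trace (x y : M2) : (x * y - y * x).trace = 0 := by
  rw [Matrix.trace_sub, Matrix.trace_mul_comm x y, sub_self]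

/-- The form is not degenerate. -/
theorem exists_dual {a : M2} (ha : a.trace = 0) (h : a ≠ 0) :
    ∃ y : M2, y.trace = 0 ∧ (y * a).trace ≠ 0 := by
  have h1 := d11 ha
  by_cases h00 : a 0 0 = 0
  · by_cases h01 : a 0 1 = 0
    · have h10 : a 1 0 ≠ 0 := by
        intro h10
        apply h
        ext i j
        fin_cases i <;> fin_cases j <;> simp [h00, h01, h10, h1]
      refine ⟨!![0, 1; 0, 0], by simp [Matrix.trace_fin_two], ?_⟩
      rw [Matrix.trace_fin_two, Matrix.mul_apply, Matrix.mul_apply, Fin.sum_univ_two,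
        Fin.sum_univ_two]
      simpa using h10
    · refine ⟨!![0, 0; 1, 0], by simp [Matrix.trace_fin_two], ?_⟩
      rw [Matrix.trace_fin_two, Matrix.mul_apply, Matrix.mul_apply, Fin.sum_univ_two,
        Fin.sum_univ_two]
      simpa using h01
  · refine ⟨!![1, 0; 0, -1], by simp [Matrix.trace_fin_two], ?_⟩
    rw [Matrix.trace_fin_two, Matrix.mul_apply, Matrix.mul_apply, Fin.sum_univ_two,
      Fin.sum_univ_two, h1]
    intro h
    apply h00
    simp at h
    linear_combination h

/-- A nonzero ideal of the Lie algebra of the traceless matrices is everything. -/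
theorem ideal_top (𝔞 : Submodule ℂ M2)
    (hid : ∀ y : M2, y.trace = 0 → ∀ a ∈ 𝔞, y * a - a * y ∈ 𝔞) {a : M2} (ha : a ∈ 𝔞)
    (hat : a.trace = 0) (h0 : a ≠ 0) : ∀ z : M2, z.trace = 0 → z ∈ 𝔞 := by
  have key : ∀ y : M2, y.trace = 0 → (y * a).trace ≠ 0 → y ∈ 𝔞 := by
    intro y hy hne
    have h1 := hid y hy _ (hid y hy a ha)
    rw [brbr hy hat] at h1
    have h2 := Submodule.sub_mem _ (Submodule.smul_mem _ (2 * (y * y).trace) ha) h1
    rw [sub_sub_cancel] at h2
    have h3 := Submodule.smul_mem _ (2 * (y * a).trace)⁻¹ h2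
    rwa [smul_smul, inv_mul_cancel₀ (mul_ne_zero two_ne_zero hne), one_smul] at h3
  obtain ⟨y, hy, hya⟩ := exists_dual hat h0
  intro z hz
  by_cases h : (z * a).trace = 0
  · have h1 := key (z + y) (by rw [Matrix.trace_add, hz, hy, add_zero]) (by
      rw [Matrix.add_mul, Matrix.trace_add, h, zero_add]
      exact hya)
    have h2 := Submodule.sub_mem _ h1 (key y hy hya)
    rwa [add_sub_cancel_right] at h2
  · exact key z hz h

/-! ### Vectors -/

theorem par {a b : Fin 2 → ℂ} (ha : a ≠ 0) (h : a 0 * b 1 = a 1 * b 0) : ∃ c : ℂ, b = c • a := by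
  by_cases h0 : a 0 = 0
  · have h1 : a 1 ≠ 0 := by
      intro h1
      apply ha
      ext i
      fin_cases i <;> simp [h0, h1]
    refine ⟨b 1 / a 1, ?_⟩
    ext i
    fin_cases i
    · have h2 : a 1 * b 0 = 0 := by rw [← h, h0, zero_mul]
      have h3 : b 0 = 0 := (mul_eq_zero.1 h2).resolve_left h1
      simp [h0, h3]
    · simp [h1]
  · refine ⟨b 0 / a 0, ?_⟩
    ext i
    fin_cases i
    · simp [h0]
    · simp only [Fin.mk_one, Pi.smul_apply, smul_eq_mul]
      field_simp
      linear_combination h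

/-- the determinant of two vectors -/
def om (a b : Fin 2 → ℂ) : ℂ := a 0 * b 1 - a 1 * b 0

theorem om_skew {u : M2} (hu : u.trace = 0) (a b : Fin 2 → ℂ) :
    om (u *ᵥ a) b = -om a (u *ᵥ b) := by
  have h1 := d11 hu
  simp only [om, Matrix.mulVec, dotProduct, Fin.sum_univ_two, h1]
  ring

theorem om_zero (a : Fin 2 → ℂ) : om a 0 = 0 := by simp [om]

theorem par' {a b : Fin 2 → ℂ} (ha : a ≠ 0) (h : om a b = 0) : ∃ c : ℂ, b = c • a :=
  par ha (by unfold om at h; linear_combination h)

theorem exists_mulVec_ne {u : M2} (h : u ≠ 0) : ∃ w : Fin 2 → ℂ, u *ᵥ w ≠ 0 := by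
  by_contra hcon
  push Not at hcon
  apply h
  ext i j
  have h1 := congrFun (hcon (Pi.single j 1)) i
  rw [Matrix.mulVec_single_one] at h1
  exact h1

/-- A Lie algebra of traceless matrices of size two without a common eigenvector is everything. -/
theorem sl2_of_irred (𝔨 : Submodule ℂ M2) (htr : ∀ x ∈ 𝔨, x.trace = 0)
    (hbr : ∀ x ∈ 𝔨, ∀ y ∈ 𝔨, x * y - y * x ∈ 𝔨)
    (h1 : ∀ v : Fin 2 → ℂ, v ≠ 0 → ∃ x ∈ 𝔨, ∀ c : ℂ, x *ᵥ v ≠ c • v) :
    ∀ x : M2, x.trace = 0 → x ∈ 𝔨 := by
  by_contra hcon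
  push Not at hcon
  obtain ⟨x0, hx0, hx0'⟩ := hcon
  obtain ⟨f, hf0, hfk⟩ := Submodule.exists_dual_map_eq_bot_of_notMem hx0' inferInstance
  have hf : ∀ x ∈ 𝔨, f x = 0 := by
    intro x hx
    have : f x ∈ Submodule.map f 𝔨 := ⟨x, hx, rfl⟩
    rw [hfk] at this
    exact this
  -- the matrix of the functional
  obtain ⟨u, hu, hfu⟩ : ∃ u : M2, u.trace = 0 ∧ ∀ x : M2, x.trace = 0 → f x = (u * x).trace := by
    let u' : M2 := Matrix.of fun i j => f (Matrix.single j i 1)
    have hu' : ∀ x : M2, f x = (u' * x).trace := by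
      intro x
      have e : x = x 0 0 • Matrix.single 0 0 1 + x 0 1 • Matrix.single 0 1 1 +
          x 1 0 • Matrix.single 1 0 1 + x 1 1 • Matrix.single 1 1 1 := by
        ext i j
        fin_cases i <;> fin_cases j <;> simp [Matrix.single]
      conv_lhs => rw [e]
      simp only [map_add, map_smul, smul_eq_mul, Matrix.trace_fin_two, Matrix.mul_apply,
        Fin.sum_univ_two, u', Matrix.of_apply]
      ring
    refine ⟨u' - (u'.trace / 2) • 1, ?_, fun x hx => ?_⟩
    · rw [Matrix.trace_sub, Matrix.trace_smul, Matrix.trace_one]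
      simp
    · rw [Matrix.sub_mul, Matrix.trace_sub, Matrix.smul_mul, Matrix.one_mul, Matrix.trace_smul, hx,
        smul_zero, sub_zero, hu']
  have hu0 : u ≠ 0 := by
    rintro rfl
    apply hf0
    rw [hfu x0 hx0, Matrix.zero_mul, Matrix.trace_zero]
  have hux : ∀ x ∈ 𝔨, u * x = -(x * u) := by
    intro x hx
    have h2 := anti hu (htr x hx)
    rw [← hfu x (htr x hx), hf x hx, zero_smul] at h2
    exact eq_neg_of_add_eq_zero_left h2
  by_cases hd : (u * u).trace = 0
  · -- `u` is nilpotent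
    have huu : u * u = 0 := by rw [sq hu, hd, zero_div, zero_smul]
    obtain ⟨w, hw⟩ := exists_mulVec_ne hu0
    obtain ⟨x, hx, hc⟩ := h1 _ hw
    have h2 : om (u *ᵥ w) (x *ᵥ (u *ᵥ w)) = 0 := by
      rw [om_skew hu]
      have h3 : u *ᵥ (x *ᵥ (u *ᵥ w)) = 0 := by
        rw [Matrix.mulVec_mulVec, hux x hx, Matrix.neg_mulVec, Matrix.mulVec_mulVec,
          Matrix.mul_assoc, huu, Matrix.mul_zero, Matrix.zero_mulVec, neg_zero]
      rw [h3, om_zero, neg_zero]
    obtain ⟨c, hc'⟩ := par' hw h2
    exact hc c hc'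
  · -- `u` is invertible, and the Lie algebra is commutative
    have hcomm : ∀ x ∈ 𝔨, ∀ y ∈ 𝔨, x * y = y * x := by
      intro x hx y hy
      have h2 := hux _ (hbr x hx y hy)
      have h3 : u * (x * y - y * x) = (x * y - y * x) * u := by
        rw [Matrix.mul_sub, Matrix.sub_mul]
        congr 1
        · rw [← Matrix.mul_assoc, hux x hx, Matrix.neg_mul, Matrix.mul_assoc, hux y hy,
            Matrix.mul_neg, neg_neg, Matrix.mul_assoc]
        · rw [← Matrix.mul_assoc, hux y hy, Matrix.neg_mul, Matrix.mul_assoc, hux x hx,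
            Matrix.mul_neg, neg_neg, Matrix.mul_assoc]
      have h4 : u * (x * y - y * x) = 0 := by
        rw [← h3] at h2
        have h5 : (2 : ℂ) • (u * (x * y - y * x)) = 0 := by
          rw [two_smul]
          nth_rewrite 1 [h2]
          rw [neg_add_cancel]
        exact (smul_eq_zero.1 h5).resolve_left two_ne_zero
      have h6 : ((u * u).trace / 2) • (x * y - y * x) = 0 := by
        have h7 : u * u * (x * y - y * x) = 0 := by rw [Matrix.mul_assoc, h4, Matrix.mul_zero]
        rw [sq hu, Matrix.smul_mul, Matrix.one_mul] at h7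
        exact h7
      have h8 := (smul_eq_zero.1 h6).resolve_left (div_ne_zero hd two_ne_zero)
      exact sub_eq_zero.1 h8
    -- an element which is not zero
    obtain ⟨x, hx, hx'⟩ := h1 (Pi.single 0 1) (by
      intro h
      have := congrFun h 0
      simp at this)
    have hx0 : x ≠ 0 := by
      rintro rfl
      apply hx' 0
      rw [Matrix.zero_mulVec, zero_smul]
    have hxt := htr x hx
    obtain ⟨μ, hμ⟩ := IsAlgClosed.exists_pow_nat_eq ((x * x).trace / 2) (n := 2) (by norm_num)
    have hxx : x * x = (μ * μ) • (1 : M2) := by rw [← pow_two μ, hμ]; exact sq hxt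
    have hne : x + μ • (1 : M2) ≠ 0 := by
      intro h
      have h2 : (x + μ • (1 : M2)).trace = 0 := by rw [h, Matrix.trace_zero]
      rw [Matrix.trace_add, Matrix.trace_smul, hxt, Matrix.trace_one, zero_add, smul_eq_mul] at h2
      have h3 : μ = 0 := by
        have : μ * 2 = 0 := by simpa using h2
        exact (mul_eq_zero.1 this).resolve_right two_ne_zero
      apply hx0
      rw [h3, zero_smul, add_zero] at h
      exact h
    obtain ⟨w, hw⟩ := exists_mulVec_ne hne
    set v := (x + μ • (1 : M2)) *ᵥ w with hv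
    have hxv : x *ᵥ v = μ • v := by
      rw [hv, Matrix.mulVec_mulVec, ← Matrix.smul_mulVec]
      congr 1
      rw [Matrix.mul_add, hxx, Matrix.mul_smul, Matrix.mul_one, smul_add, smul_smul, add_comm]
    obtain ⟨y, hy, hyv⟩ := h1 v hw
    by_cases hμ0 : μ = 0
    · have hvx : v = x *ᵥ w := by rw [hv, hμ0, zero_smul, add_zero]
      have h2 : om v (y *ᵥ v) = 0 := by
        nth_rewrite 1 [hvx]
        rw [om_skew hxt, Matrix.mulVec_mulVec, hcomm x hx y hy, ← Matrix.mulVec_mulVec, hxv, hμ0,
          zero_smul, Matrix.mulVec_zero, om_zero, neg_zero]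
      obtain ⟨c, hc⟩ := par' hw h2
      exact hyv c hc
    · -- `y` is a multiple of `x`
      have h2 := anti hxt (htr y hy)
      rw [← hcomm x hx y hy, ← two_smul ℂ] at h2
      have h3 : (2 * (μ * μ)) • y = (x * y).trace • x := by
        have h4 := congrArg (fun z => x * z) h2
        simp only [Matrix.mul_smul, Matrix.mul_one, ← Matrix.mul_assoc, hxx, Matrix.smul_mul,
          Matrix.one_mul, smul_smul] at h4
        exact h4
      have h5 : y = ((x * y).trace / (2 * (μ * μ))) • x := by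
        have h6 : (2 * (μ * μ)) ≠ 0 := mul_ne_zero two_ne_zero (mul_ne_zero hμ0 hμ0)
        calc y = (2 * (μ * μ))⁻¹ • ((2 * (μ * μ)) • y) := by
              rw [smul_smul, inv_mul_cancel₀ h6, one_smul]
          _ = _ := by rw [h3, smul_smul]; congr 1; field_simp
      apply hyv (((x * y).trace / (2 * (μ * μ))) * μ)
      conv_lhs => rw [h5, Matrix.smul_mulVec, hxv, smul_smul]

end Pool.Agent.U400.PD
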